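import Pool.Agent.Q45.Cov.Table

/-! A block of 10000 consecutive integers, each divisible by two distinct primes below 10000
or by the square of a prime below 5000. -/

set_option autoImplicit false

namespace Pool.Agent.Results.MP_23c930_nt.TenThousand

/-- For `n = 10000` there is a block `m+1, …, m+n` all of whose members are `n`-covered. -/
theorem result : ∃ m : ℕ, ∀ i ∈ Finset.Icc 1 10000,
    (∃ p q : ℕ, p.Prime ∧ q.Prime ∧ p ≠ q ∧ p < 10000 ∧ q < 10000 ∧ p * q ∣ m + i) ∨
    (∃ p : ℕ, p.Prime ∧ 2 * p < 10000 ∧ p ^ 2 ∣ m + i) :=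
  Pool.Agent.Q45.Cov.main 10000 Pool.Agent.Q45.Cov.T Pool.Agent.Q45.Cov.check_T

end Pool.Agent.Results.MP_23c930_nt.TenThousand
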